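import Pool.Agent.helper94.T5.SpecP

set_option autoImplicit false

namespace Pool.Agent.T5P

open Finset

theorem PKR : PKR_stmt := by
  intro A _ n k m g R Z b hn hZ hb h1 h2 h3
  have hu : IsUnit (n ^ 2 * Z) := (hn.pow 2).mul hZ
  have e1 : k * (R * b ^ 2 - 2 * Z * b * m - Z ^ 2 * k) =
      m * (Z * g - 2 * Z * k * b - b ^ 2 * m) := by
    linear_combination (-b ^ 2) * h1 + Z * h2
  have e2 : m * (R * b ^ 2 - 2 * Z * b * m - Z ^ 2 * k) =
      -(R * (Z * g - 2 * Z * k * b - b ^ 2 * m)) := by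
    linear_combination (2 * b * Z) * h1 - Z * h3
  have e3 : n ^ 2 * Z * (Z * g - 2 * Z * k * b - b ^ 2 * m) = n ^ 2 * Z * 0 := by
    linear_combination (Z * g - 2 * Z * k * b - b ^ 2 * m) * h1 - m * e1 + k * e2
  have hd : Z * g - 2 * Z * k * b - b ^ 2 * m = 0 := hu.mul_left_cancel e3
  have e4 : n ^ 2 * Z * (R * b ^ 2 - 2 * Z * b * m - Z ^ 2 * k) = n ^ 2 * Z * 0 := by
    linear_combination (R * b ^ 2 - 2 * Z * b * m - Z ^ 2 * k) * h1 + R * e1 + m * e2
  have hr : R * b ^ 2 - 2 * Z * b * m - Z ^ 2 * k = 0 := hu.mul_left_cancel e4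
  refine ⟨by linear_combination hd, by linear_combination hr, fun a ha => ?_⟩
  have hv : IsUnit (n ^ 2 * b ^ 2) := (hn.pow 2).mul (hb.pow 2)
  refine hv.mul_left_cancel ?_
  linear_combination (n * b * a + m * b + Z * k) * ha - b ^ 2 * h1 - k * hr

end Pool.Agent.T5P
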