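import Pool.Agent.helper8.T5.SpecU

set_option autoImplicit false

namespace Pool.Agent.T5

open Finset NumberField Pool.Agent.helper3.FT Pool.Agent.helper47.RA

/-- the tuple and the two signs -/
def UTP_map (t : ℤ × ℤ × ℤ × ℤ × ℤ × ℤ) : Tpl × (Bool × Bool) :=
  (((t.1.natAbs, t.2.1.natAbs), (t.1.sign * t.2.1.sign * t.2.2.1,
    t.1.sign * t.2.1.sign * t.2.2.2.1, t.2.2.2.2.1)), (decide (0 < t.1), decide (0 < t.2.1)))

theorem UTP_sq {x : ℤ} (hx : x ≠ 0) : x.sign ^ 2 = 1 := by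
  rcases lt_or_gt_of_ne hx with h | h
  · rw [Int.sign_eq_neg_one_of_neg h]
    norm_num
  · rw [Int.sign_eq_one_of_pos h]
    norm_num

theorem UTP_a {n k m g Z L D d y y' : ℤ} (hn : n ≠ 0) (hk : k ≠ 0) (hc : IsCoprime n k)
    (r1 : m * g = L * n ^ 2 - Z * k ^ 2) (r2 : -(k * y) = m ^ 2 - Z * n ^ 2)
    (r3 : n * y' = g ^ 2 - L * k ^ 2)
    (r4 : D * (d * n * k) ^ 2 = (Z * g - L * m) ^ 2 - 4 * Z ^ 2 * L * k ^ 2) :
    IsT (UTP_map (n, k, m, g, Z, L)).1 ∧ (UTP_map (n, k, m, g, Z, L)).1.2.2.2 = Z ∧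
      lam (UTP_map (n, k, m, g, Z, L)).1 = L ∧ dis (UTP_map (n, k, m, g, Z, L)).1 = D * d ^ 2 := by
  have hs : (n.sign * k.sign) ^ 2 = 1 := by
    rw [mul_pow, UTP_sq hn, UTP_sq hk, one_mul]
  obtain ⟨s, hs'⟩ : ∃ s : ℤ, s = n.sign * k.sign := ⟨_, rfl⟩
  rw [← hs'] at hs
  have hmap : (UTP_map (n, k, m, g, Z, L)).1 = ((n.natAbs, k.natAbs), (s * m, s * g, Z)) := by
    rw [hs']
    rfl
  rw [hmap]
  have en : ((n.natAbs : ℕ) : ℤ) ^ 2 = n ^ 2 := Int.natAbs_sq n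
  have ek : ((k.natAbs : ℕ) : ℤ) ^ 2 = k ^ 2 := Int.natAbs_sq k
  have hn2 : n ^ 2 ≠ 0 := pow_ne_zero _ hn
  have hlam : lam ((n.natAbs, k.natAbs), (s * m, s * g, Z)) = L := by
    change (s * m * (s * g) + Z * ((k.natAbs : ℕ) : ℤ) ^ 2) / ((n.natAbs : ℕ) : ℤ) ^ 2 = L
    rw [en, ek]
    have : s * m * (s * g) + Z * k ^ 2 = L * n ^ 2 := by
      linear_combination (m * g) * hs + r1
    rw [this, Int.mul_ediv_cancel _ hn2]
  refine ⟨⟨Int.natAbs_pos.2 hn, Int.natAbs_pos.2 hk, ?_, ?_, ?_⟩, rfl, hlam, ?_⟩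
  · exact Int.isCoprime_iff_gcd_eq_one.1 hc
  · change ((n.natAbs : ℕ) : ℤ) ^ 3 ∣ Z * ((k.natAbs : ℕ) : ℤ) ^ 4 +
      s * m * (s * g) * ((k.natAbs : ℕ) : ℤ) ^ 2 - (s * g) ^ 2 * ((n.natAbs : ℕ) : ℤ) ^ 2
    have h4 : ((k.natAbs : ℕ) : ℤ) ^ 4 = k ^ 4 := by
      have : ((k.natAbs : ℕ) : ℤ) ^ 4 = (((k.natAbs : ℕ) : ℤ) ^ 2) ^ 2 := by ring
      rw [this, ek]
      ring
    rw [h4, en, ek]
    have h5 : Z * k ^ 4 + s * m * (s * g) * k ^ 2 - (s * g) ^ 2 * n ^ 2 = n ^ 3 * (-y') := by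
      linear_combination (m * g * k ^ 2 - g ^ 2 * n ^ 2) * hs + k ^ 2 * r1 + n ^ 2 * r3
    rw [h5]
    exact Dvd.dvd.mul_right (pow_dvd_pow_of_dvd (Int.natAbs_dvd.2 dvd_rfl) 3) _
  · change ((k.natAbs : ℕ) : ℤ) ∣ (s * m) ^ 2 - Z * ((n.natAbs : ℕ) : ℤ) ^ 2
    rw [en, Int.natAbs_dvd]
    refine ⟨-y, ?_⟩
    linear_combination (m ^ 2) * hs - r2
  · change ((Z * (s * g) - lam ((n.natAbs, k.natAbs), (s * m, s * g, Z)) * (s * m)) ^ 2 -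
      4 * Z ^ 2 * lam ((n.natAbs, k.natAbs), (s * m, s * g, Z)) * ((k.natAbs : ℕ) : ℤ) ^ 2) /
      (((n.natAbs : ℕ) : ℤ) * ((k.natAbs : ℕ) : ℤ)) ^ 2 = D * d ^ 2
    rw [hlam, mul_pow ((n.natAbs : ℕ) : ℤ), en, ek]
    have h5 : (Z * (s * g) - L * (s * m)) ^ 2 - 4 * Z ^ 2 * L * k ^ 2 =
        D * d ^ 2 * (n ^ 2 * k ^ 2) := by
      linear_combination ((Z * g - L * m) ^ 2) * hs - r4
    rw [h5, Int.mul_ediv_cancel _ (mul_ne_zero hn2 (pow_ne_zero _ hk))]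

theorem UTP_c {x y : ℤ} (h1 : x.natAbs = y.natAbs) (h2 : decide (0 < x) = decide (0 < y)) :
    x = y := by
  have h3 : 0 < x ↔ 0 < y := decide_eq_decide.1 h2
  omega

theorem UTP_b {n k m g Z L n' k' m' g' Z' L' : ℤ} (hn : n ≠ 0) (hk : k ≠ 0)
    (r1 : m * g = L * n ^ 2 - Z * k ^ 2) (r1' : m' * g' = L' * n' ^ 2 - Z' * k' ^ 2)
    (h : UTP_map (n, k, m, g, Z, L) = UTP_map (n', k', m', g', Z', L')) :
    (n, k, m, g, Z, L) = (n', k', m', g', Z', L') := by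
  unfold UTP_map at h
  simp only [Prod.mk.injEq] at h
  obtain ⟨⟨⟨a1, a2⟩, a3, a4, a5⟩, a6, a7⟩ := h
  have e1 : n = n' := UTP_c a1 a6
  have e2 : k = k' := UTP_c a2 a7
  subst e1
  subst e2
  have hs0 : n.sign * k.sign ≠ 0 := mul_ne_zero
    (fun h0 => hn (Int.sign_eq_zero_iff_zero.1 h0)) (fun h0 => hk (Int.sign_eq_zero_iff_zero.1 h0))
  have e3 : m = m' := mul_left_cancel₀ hs0 a3
  have e4 : g = g' := mul_left_cancel₀ hs0 a4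
  subst e3
  subst e4
  subst a5
  have e5 : L * n ^ 2 = L' * n ^ 2 := by linear_combination r1' - r1
  have e6 : L = L' := mul_right_cancel₀ (pow_ne_zero _ hn) e5
  rw [e6]

theorem UTP : UTP_stmt := by
  intro K _ _ Q _
  refine ⟨fun F => UTP_map F.tup, fun F hn hk _ _ => ?_, fun F F' hn hk hn' hk' h => ?_⟩
  · obtain ⟨d, n, k, m, g, y, y', hpos, hd, h1, h2, h3, h4, h5, h6, ht, r1, r2, r3, r4⟩ :=
      F.h52_red hn
    have n0 : n ≠ 0 := by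
      rintro rfl
      exact hn (by rw [h1, mul_zero])
    have k0 : k ≠ 0 := by
      rintro rfl
      exact hk (by rw [h2, mul_zero])
    have hcop : IsCoprime n k := by
      have hg : 0 < Int.gcd (Q.Y F.β) (Q.Y F.γ) := Int.gcd_pos_of_ne_zero_left _ hn
      have h7 := Int.isCoprime_iff_gcd_eq_one.2 (Int.gcd_ediv_gcd_ediv_gcd hg)
      rwa [← hd, h1, h2, Int.mul_ediv_cancel_left _ hpos.ne',
        Int.mul_ediv_cancel_left _ hpos.ne'] at h7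
    obtain ⟨a1, a2, a3, a4⟩ := UTP_a n0 k0 hcop r1 r2 r3 r4
    rw [← ht] at a1 a2 a3 a4
    exact ⟨a1, a2, a3, d, hpos.ne', a4⟩
  · obtain ⟨d, n, k, m, g, y, y', hpos, hd, h1, h2, h3, h4, h5, h6, ht, r1, r2, r3, r4⟩ :=
      F.h52_red hn
    obtain ⟨d₂, n₂, k₂, m₂, g₂, y₂, y₂', hpos₂, hd₂, h1₂, h2₂, h3₂, h4₂, h5₂, h6₂, ht₂, r1₂, r2₂,
      r3₂, r4₂⟩ := F'.h52_red hn'
    have n0 : n ≠ 0 := by
      rintro rfl
      exact hn (by rw [h1, mul_zero])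
    have k0 : k ≠ 0 := by
      rintro rfl
      exact hk (by rw [h2, mul_zero])
    have h7 : UTP_map F.tup = UTP_map F'.tup := h
    have h8 : F.tup = F'.tup := by
      rw [ht, ht₂] at h7 ⊢
      exact UTP_b n0 k0 r1 r1₂ h7
    exact F.tup_inj F' hn hk hn' hk' h8

end Pool.Agent.T5
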